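import Pool.Agent.X32.Uni.Cub

/-!
# Exact graphs of almost prime differences of cubes, in short intervals

For integers `u ≠ v` put `Q_{u,v}(x) = ((x + u)³ - (x + v)³) / (u - v) = (x + u)² + (x + u)(x + v) + (x + v)²`; for
`v = u + 1` these are the differences of consecutive cubes. Let `S` be a finite set of edges `{u, v}` (a finite graph
on the integers) such that for every prime `p` there is an `x` with `p ∤ Q_{u,v}(x)` for all the edges of `S` (this is
necessary), and let `H` and `ε > 0` be given. There are `C`, `t` and `κ, K > 0` such that for all large `X` and EVERY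
interval `(A, B]` with `B ≤ X`, `B - A ≥ X ^ ε` the number of the integers `n` of `(A, B]` for which
* `Q_{u,v}(n)` is a product of at most `2 t` primes `> X ^ (1 / t)` for all the edges of `S`,
* `Q_{u,v}(n)` has a prime factor `≤ C` for ALL other pairs `u, v` of `[-H, H]`
is between `κ (B - A) V` and `K (B - A) V`. Here `V = ∏_{p ≤ X} (1 - ω(p) / p)`, `ω(p)` the number of the zeros of
`∏ Q_{u,v}(x)`, `{u, v} ∈ S`, modulo `p`, so this is the conjectured order of magnitude for primes. For every `s`,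
`δ > 0` and every colouring with `r` colours all but `δ (B - A) V` of these `n` are covered by pairwise disjoint
monochromatic progressions of `s` such `n` with differences `≤ (log X) ^ c`.

For `S = {{0, 1}}`: `(n + 1)³ - n³` is almost prime, but no other quotient `((n + u)³ - (n + v)³) / (u - v)` of a
difference of two cubes near `n³` is.
-/

set_option autoImplicit false

namespace Pool.Agent.Results.MP_22d6bb_nt.ExactCubeDifferences

open Finset

variable {k : ℕ}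

/-- `Q_{u,v}(x) = (x + u)² + (x + u)(x + v) + (x + v)²` for `z = (u, v)` -/
def Q (z : ℤ × ℤ) (x : ℤ) : ℤ := (x + z.1) ^ 2 + (x + z.1) * (x + z.2) + (x + z.2) ^ 2

/-- `|v| > 1`, and `|v|` is a product of at most `r` primes, all of them larger than `y` -/
def Almost (r : ℕ) (y : ℝ) (v : ℤ) : Prop :=
  1 < |v| ∧ v.natAbs.primeFactorsList.length ≤ r ∧ ∀ q : ℕ, q.Prime → (q : ℤ) ∣ v → y < q

/-- `ω(p)`: the number of the zeros of the product modulo `p` -/
def omega (S : Fin k → ℤ × ℤ) (p : ℕ) : ℕ := ((range p).filter (fun x : ℕ => (p : ℤ) ∣ ∏ l, Q (S l) x)).card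

/-- the product of `1 - ω(p) / p` over the primes `p ≤ X` -/
noncomputable def V (S : Fin k → ℤ × ℤ) (X : ℕ) : ℝ :=
  ∏ p ∈ (Icc 1 X).filter Nat.Prime, (1 - (omega S p : ℝ) / p)

open Classical in
/-- the integers `n` of `(A, B]` described above -/
noncomputable def Good (S : Fin k → ℤ × ℤ) (H C t X A B : ℕ) : Finset ℕ :=
  (Ioc A B).filter (fun n : ℕ =>
    (∀ l, Almost (2 * t) ((X : ℝ) ^ (1 / (t : ℝ))) (Q (S l) n)) ∧
    ∀ u v : ℤ, |u| ≤ H → |v| ≤ H → (∀ l, S l ≠ (u, v) ∧ S l ≠ (v, u)) →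
      ∃ q : ℕ, q.Prime ∧ q ≤ C ∧ (q : ℤ) ∣ Q (u, v) n)

/-- the terms `a, a + b, ..., a + (s - 1) b` of the progression `z = (a, b)` -/
def terms (s : ℕ) (z : ℕ × ℕ) : Finset ℕ := (range s).image (fun i => z.1 + i * z.2)

theorem result (hk : 0 < k) (S : Fin k → ℤ × ℤ) (hne : ∀ l, (S l).1 ≠ (S l).2)
    (hS : ∀ p : ℕ, p.Prime → ∃ x : ℤ, ∀ l, ¬ (p : ℤ) ∣ Q (S l) x) (H : ℕ) (ε : ℝ) (hε : 0 < ε) :
    ∃ C t : ℕ, 1 ≤ t ∧ ∃ κ K : ℝ, 0 < κ ∧ 0 < K ∧ ∀ (s r : ℕ) (δ : ℝ), 1 ≤ s → 0 < δ → ∃ c X₀ : ℕ, ∀ X : ℕ, X₀ ≤ X →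
      κ / Real.log X ^ (2 * k) ≤ V S X ∧ ∀ A B : ℕ, B ≤ X → (X : ℝ) ^ ε ≤ (B : ℝ) - A →
        κ * ((B : ℝ) - A) * V S X ≤ ((Good S H C t X A B).card : ℝ) ∧
        ((Good S H C t X A B).card : ℝ) ≤ K * ((B : ℝ) - A) * V S X ∧
        ∀ χ : ℕ → Fin r, ∃ P : Finset (ℕ × ℕ),
          (∀ z ∈ P, 1 ≤ z.2 ∧ (z.2 : ℝ) ≤ Real.log X ^ c ∧
            ∀ l < s, z.1 + l * z.2 ∈ Good S H C t X A B ∧ χ (z.1 + l * z.2) = χ z.1) ∧
          (P : Set (ℕ × ℕ)).PairwiseDisjoint (terms s) ∧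
          (((Good S H C t X A B \ P.biUnion (terms s)).card : ℕ) : ℝ) ≤ δ * ((B : ℝ) - A) * V S X :=
  Pool.Agent.X32.Uni.cubS hk S hne hS H ε hε

end Pool.Agent.Results.MP_22d6bb_nt.ExactCubeDifferences
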