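import Pool.Agent.X15.SysS.Idx

/-!
# Primes `3k² + 3k + t`, `k` a prime with index in a set with bounded gaps, for most constants `t`

Let `S` be a set of positive integers with bounded gaps, for instance the multiples of a fixed integer. For all but an
arbitrarily small proportion of the admissible vectors of positive integers `t_j ≤ x²`, at least
`c x / (log x) ^ (r + 1)` indices `m ∈ S` are such that `k = p_m ≤ x` makes all the numbers `3k² + 3k + t_j` prime.

The theorem rests on the library development Pool.Agent.TH882.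
-/

set_option autoImplicit false

open Finset Filter Topology

namespace Pool.Agent.Results.MP_22d6bb_nt.MostConstantsSyndeticIndex

/-- The `m`-th prime: `p 1 = 2`, `p 2 = 3`, `p 3 = 5`, and so on. -/
noncomputable def p (m : ℕ) : ℕ := Nat.nth Nat.Prime (m - 1)

/-- Every block of `M` consecutive positive integers contains an element of `S`. -/
def Syndetic (M : ℕ) (S : Set ℕ) : Prop := ∀ j : ℕ, 1 ≤ j → ∃ i < M, j + i ∈ S

/-- No local obstruction: for every prime `l` there is an integer `y` such that `l` divides neither `y` nor any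
`3y² + 3y + t_j`. -/
def Admissible {r : ℕ} (t : Fin r → ℕ) : Prop :=
  ∀ l : ℕ, l.Prime → ∃ y : ℤ, ¬ (l : ℤ) ∣ y ∧ ∀ j, ¬ (l : ℤ) ∣ 3 * y ^ 2 + 3 * y + t j

/-- The indices `m ∈ S` with `p_m ≤ x` such that all the numbers `3 p_m² + 3 p_m + t_j` are prime. -/
def indices (S : Set ℕ) {r : ℕ} (t : Fin r → ℕ) (x : ℕ) : Set ℕ :=
  {m : ℕ | 1 ≤ m ∧ m ∈ S ∧ p m ≤ x ∧ ∀ j, (3 * p m ^ 2 + 3 * p m + t j).Prime}

/-- The admissible vectors of positive integers `t_j ≤ x²` with fewer than `c x / (log x) ^ (r + 1)` such indices. -/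
def exceptions (S : Set ℕ) (r : ℕ) (c : ℝ) (x : ℕ) : Set (Fin r → ℕ) :=
  {t : Fin r → ℕ | (∀ j, 1 ≤ t j ∧ t j ≤ x ^ 2) ∧ Admissible t ∧
    ((indices S t x).ncard : ℝ) < c * (x / Real.log x ^ (r + 1))}

lemma p_primeCounting {q : ℕ} (hq : q.Prime) : p (Nat.primeCounting q) = q := by
  unfold p
  have h1 : Nat.primeCounting q = Nat.count Nat.Prime q + 1 := by
    unfold Nat.primeCounting Nat.primeCounting'
    rw [Nat.count_succ, if_pos hq]
  rw [h1, Nat.add_sub_cancel]
  exact Nat.nth_count hq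

lemma indices_finite (S : Set ℕ) {r : ℕ} (h : Fin r → ℕ) (x : ℕ) : (indices S h x).Finite := by
  apply (Set.finite_Iic (x + 1)).subset
  rintro m ⟨h1, -, h3, -⟩
  rw [Set.mem_Iic]
  have h4 : m - 1 ≤ p m := (Nat.nth_strictMono Nat.infinite_setOf_prime).le_apply (x := m - 1)
  omega

lemma poly_aux : ∃ g : Polynomial ℤ, g.natDegree = 2 ∧ g.leadingCoeff = 3 ∧
    ∀ n : ℤ, g.eval n = 3 * n ^ 2 + 3 * n := by
  refine ⟨Polynomial.C 3 * Polynomial.X ^ 2 + Polynomial.C 3 * Polynomial.X + Polynomial.C 0,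
    Polynomial.natDegree_quadratic (by norm_num), Polynomial.leadingCoeff_quadratic (by norm_num), ?_⟩
  intro n
  simp only [Polynomial.eval_add, Polynomial.eval_mul, Polynomial.eval_C, Polynomial.eval_pow, Polynomial.eval_X,
    add_zero]

/-- **Cuban-type primes at primes with an index in a syndetic set, for most constants.** Let `S` be a set of integers
which meets every block of `M` consecutive positive integers (for instance the multiples of `M`), `r ≥ 0` and `κ > 0`.
There are `c > 0` and `x₀` such that for all `x ≥ x₀` and for all admissible vectors `(t_1, ..., t_r)` of positive integers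
`t_j ≤ x²`, with at most `κ x ^ (2 r)` exceptions, at least `c x / (log x) ^ (r + 1)` indices `m ∈ S` with `p_m ≤ x` make all
the numbers `3 p_m² + 3 p_m + t_j` prime. -/
theorem result (M : ℕ) (S : Set ℕ) (hS : Syndetic M S) (r : ℕ) (κ : ℝ) (hκ : 0 < κ) : ∃ c : ℝ, 0 < c ∧
      ∃ x₀ : ℕ, ∀ x : ℕ, x₀ ≤ x → ((exceptions S r c x).ncard : ℝ) ≤ κ * (x : ℝ) ^ (2 * r) := by
  classical
  have hM : 1 ≤ M := by
    obtain ⟨i, hi, -⟩ := hS 1 le_rfl
    omega
  obtain ⟨g, hgd, hgl, hge⟩ := poly_aux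
  obtain ⟨c, hc, x₀, h⟩ := Pool.Agent.X15.SysS.idx_sys (fun _ : Fin r => (1 : ℤ))
    (fun _ => Or.inl rfl) (fun _ => g) (fun _ => by rw [hgd]; norm_num) (fun _ => by rw [hgl]; norm_num) M hM
    S hS 1 κ hκ
  refine ⟨c, hc, x₀, fun x hx => ?_⟩
  have h1 := h x hx
  have e0 : ∏ j : Fin r, (x : ℝ) ^ g.natDegree = (x : ℝ) ^ (2 * r) := by
    rw [hgd, prod_const, card_univ, Fintype.card_fin, ← pow_mul]
  rw [e0] at h1
  refine le_trans ?_ h1
  apply Nat.cast_le.2
  rw [← Set.ncard_coe_finset]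
  apply Set.ncard_le_ncard _ (finite_toSet _)
  rintro k ⟨hk1, hk2, hk3⟩
  rw [mem_coe, mem_filter, Fintype.mem_piFinset]
  refine ⟨fun j => ?_, ?_, lt_of_le_of_lt ?_ hk3⟩
  · rw [mem_Icc, hgd, one_mul]
    exact hk1 j
  · intro l hl
    obtain ⟨y, hy1, hy2⟩ := hk2 l hl
    refine ⟨y, hy1, fun j hd => hy2 j ?_⟩
    rw [one_mul, hge, add_comm] at hd
    exact hd
  · apply Nat.cast_le.2
    rw [← Set.ncard_coe_finset]
    apply Set.ncard_le_ncard_of_injOn Nat.primeCounting _ _ (indices_finite S k x)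
    · intro q hq
      rw [mem_coe, mem_filter, mem_Icc] at hq
      obtain ⟨⟨hq1, hq2⟩, hq3, hq4, hq5⟩ := hq
      refine ⟨?_, hq4, ?_, ?_⟩
      · exact Nat.monotone_primeCounting hq3.two_le |>.trans' (by decide)
      · rw [p_primeCounting hq3]
        exact hq2
      · intro j
        have h5 := hq5 j
        rw [one_mul, hge] at h5
        rw [p_primeCounting hq3]
        have h6 : ((k j : ℤ) + (3 * (q : ℤ) ^ 2 + 3 * q)).toNat = 3 * q ^ 2 + 3 * q + k j := by
          have : ((k j : ℤ) + (3 * (q : ℤ) ^ 2 + 3 * q)) = ((3 * q ^ 2 + 3 * q + k j : ℕ) : ℤ) := by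
            push_cast
            ring
          rw [this, Int.toNat_natCast]
        rwa [h6] at h5
    · intro q hq q' hq' hqq
      rw [mem_coe, mem_filter] at hq hq'
      rw [← p_primeCounting hq.2.1, ← p_primeCounting hq'.2.1, hqq]

end Pool.Agent.Results.MP_22d6bb_nt.MostConstantsSyndeticIndex
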