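import Pool.Agent.X119.Dig

set_option autoImplicit false

/-!
# Almost prime differences of consecutive cubes with restricted digits

There are `c > 0` and `r₀` such that for all `r ≥ r₀`, all bases `b` and all large `K` the following
holds for ALL choices of sets `A 0, ..., A (K - 1)` of digits with `∏ |A i| ≥ exp (- c K) b ^ K`: the
integers `k < b ^ K` whose `i`-th digit belongs to `A i` for all `i < K`, such that `3 k ^ 2 + 3 k + 1` has
at most `r` prime factors, all larger than `k ^ (1 / r)`, have the expected order `∏ |A i| / K` (if the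
last digit can be chosen such that the value is coprime to the base), and at most `C ∏ |A i| / K` of the
integers `k` with these digits have a prime value `3 k ^ 2 + 3 k + 1 = (k + 1) ^ 3 - k ^ 3` (cuban primes).
-/

namespace Pool.Agent.Results.MP_22d6bb_nt.PrescribedDigits

open Finset Filter
open Pool.Agent.Y816.PD (NA ND)

/-- `3 k ^ 2 + 3 k + 1` has at most `r` prime factors (with multiplicity), all of them larger than
`k ^ (1 / r)`. -/
def Almost (r : ℕ) : Set ℕ :=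
  {k | (∀ p : ℕ, p.Prime → p ∣ 3 * k ^ 2 + 3 * k + 1 → (k : ℝ) ^ (1 / (r : ℝ)) < (p : ℝ)) ∧
    (3 * k ^ 2 + 3 * k + 1).primeFactorsList.length ≤ r}

/-- The `k` for which the difference of the cubes of `k + 1` and `k` is a prime. -/
def S : Set ℕ := {k | ∃ p : ℕ, p.Prime ∧ (k + 1) ^ 3 = k ^ 3 + p}

lemma val (m : ℕ) : (3 : ℤ) * (m : ℤ) ^ 2 + 3 * m + 1 = ((3 * m ^ 2 + 3 * m + 1 : ℕ) : ℤ) := by
  push_cast
  ring

lemma dvd_iff {m p : ℕ} : (p : ℤ) ∣ 3 * (m : ℤ) ^ 2 + 3 * m + 1 ↔ p ∣ 3 * m ^ 2 + 3 * m + 1 := by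
  rw [val]
  exact Int.natCast_dvd_natCast

/-- **Restricted digits.** -/
theorem result :
    ∃ c : ℝ, 0 < c ∧ ∃ r₀ : ℕ, 2 ≤ r₀ ∧ ∀ r : ℕ, r₀ ≤ r → ∀ b : ℕ, 2 ≤ b → ∃ κ C : ℝ, 0 < κ ∧ 0 < C ∧
      ∀ᶠ K : ℕ in atTop, ∀ A : ℕ → Finset ℕ, (∀ i < K, A i ⊆ range b) →
        (b : ℝ) ^ K ≤ Real.exp (c * K) * NA K A →
        ((∃ d ∈ A 0, (3 * d ^ 2 + 3 * d + 1).Coprime b) →
          κ * NA K A / (K : ℝ) ≤ ND b K A (Almost r)) ∧
        (ND b K A S : ℝ) ≤ C * NA K A / (K : ℝ) := by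
  obtain ⟨c, hc, r₀, hr₀, h⟩ := Pool.Agent.Y816.PD.digits_quad 3 3 1 (by norm_num)
    (fun p hp h => by
      have h2 : p ∣ 1 := by exact_mod_cast h.2.2
      exact hp.one_lt.ne' (Nat.dvd_one.1 h2))
    (by
      rintro ⟨x, hx⟩
      nlinarith [mul_self_nonneg x])
    (fun p hp => ⟨0, fun h => by
      rw [dvd_iff] at h
      exact hp.one_lt.ne' (Nat.dvd_one.1 (by simpa using h))⟩)
    (fun r => {m | ∀ p : ℕ, p.Prime → (p : ℤ) ∣ 3 * (m : ℤ) ^ 2 + 3 * m + 1 →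
      (m : ℝ) ^ (1 / (r : ℝ)) < (p : ℝ)})
    Almost (fun r m _ h => h)
    (fun r m hr h1 h2 => by
      rw [val, Int.natAbs_natCast] at h2
      exact ⟨fun p hp hd => h1 p hp (dvd_iff.2 hd), h2⟩)
    (fun b d => (3 * d ^ 2 + 3 * d + 1).Coprime b)
    (fun b d hb h p hp hpb hd => by
      have h2 := Nat.dvd_gcd (dvd_iff.1 hd) hpb
      rw [h] at h2
      exact hp.one_lt.ne' (Nat.dvd_one.1 h2))
  simp only [pow_one] at h
  refine ⟨c, hc, r₀, hr₀, fun r hr b hb => ?_⟩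
  obtain ⟨κ, C, hκ, hC, h1⟩ := h r hr b hb
  refine ⟨κ, C, hκ, hC, ?_⟩
  filter_upwards [h1] with K hK A hA hprod
  obtain ⟨h2, h3⟩ := hK A hA hprod
  refine ⟨h2, (Pool.Agent.X119.Dig.nd_mono b K A ?_).trans h3⟩
  rintro n ⟨q, hq, hqn⟩ p hp hd
  have hn : (3 * n ^ 2 + 3 * n + 1).Prime := by
    have h6 : q = 3 * n ^ 2 + 3 * n + 1 := by
      have h7 : (n + 1) ^ 3 = n ^ 3 + (3 * n ^ 2 + 3 * n + 1) := by ring
      omega
    rwa [h6] at hq
  have hr2 : 2 ≤ r := hr₀.trans hr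
  rcases Nat.lt_or_ge n 2 with h5 | h5
  · interval_cases n
    · exact Pool.Agent.X119.Dig.zero_rough hr2 hp
    · exact Pool.Agent.X119.Dig.one_rough hp
  · exact Pool.Agent.X119.Dig.prime_rough hr2 h5 hn (by nlinarith) hp (dvd_iff.1 hd)

end Pool.Agent.Results.MP_22d6bb_nt.PrescribedDigits
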